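import Mathlib

set_option autoImplicit false

/-! # A quaternary cyclotomic polynomial of height at least three under the congruence conditions -/

namespace Pool.Agent.Results.MP_b29aa3_nt.HeightThree

open Polynomial

/-- The height of the `n`-th cyclotomic polynomial: the largest absolute value of a coefficient. -/
noncomputable def height (n : ℕ) : ℕ :=
  (cyclotomic n ℤ).support.sup (fun k => ((cyclotomic n ℤ).coeff k).natAbs)

/-- `x ≡ ± 1 (mod m)`. -/
def PM (x m : ℕ) : Prop := (x : ℤ) ≡ 1 [ZMOD m] ∨ (x : ℤ) ≡ -1 [ZMOD m]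

/-! ## A general coefficient formula -/

lemma coeff_expand_mul (A B : ℤ[X]) (s n : ℕ) :
    (expand ℤ s A * B).coeff n =
      ∑ k ∈ Finset.range (A.natDegree + 1),
        if k * s ≤ n then A.coeff k * B.coeff (n - k * s) else 0 := by
  conv_lhs => rw [A.as_sum_range_C_mul_X_pow]
  rw [map_sum, Finset.sum_mul, finsetSum_coeff]
  refine Finset.sum_congr rfl (fun k _ => ?_)
  rw [map_mul, expand_C, map_pow, expand_X, ← pow_mul, mul_assoc, coeff_C_mul, coeff_X_pow_mul',
    mul_comm s k]
  split_ifs <;> simp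

lemma coeff_formula_aux (F A B : ℤ[X]) (m s : ℕ) (hm : 0 < m)
    (h : F * (X ^ m - 1) = expand ℤ s A * B) (hB : ∀ j, m ≤ j → B.coeff j = 0) (n : ℕ) :
    F.coeff n = - ∑ k ∈ Finset.range (A.natDegree + 1),
      if k * s ≤ n then A.coeff k * B.coeff ((n - k * s) % m) else 0 := by
  induction n using Nat.strong_induction_on with
  | _ n ih =>
    have h1 : (F * (X ^ m - 1)).coeff n = (if m ≤ n then F.coeff (n - m) else 0) - F.coeff n := by
      rw [mul_sub, mul_one, coeff_sub, coeff_mul_X_pow']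
    rw [h, coeff_expand_mul A B s n] at h1
    have h2 : F.coeff n = (if m ≤ n then F.coeff (n - m) else 0) -
        ∑ k ∈ Finset.range (A.natDegree + 1),
        if k * s ≤ n then A.coeff k * B.coeff (n - k * s) else 0 := by linarith
    rw [h2]
    by_cases hmn : m ≤ n
    · rw [if_pos hmn, ih (n - m) (by omega), ← neg_add', ← Finset.sum_add_distrib]
      congr 1
      refine Finset.sum_congr rfl (fun k _ => ?_)
      by_cases h3 : k * s ≤ n - m
      · rw [if_pos h3, if_pos (by omega : k * s ≤ n), if_pos (by omega : k * s ≤ n),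
          hB (n - k * s) (by omega), mul_zero, add_zero]
        congr 2
        have : n - k * s = (n - m - k * s) + m := by omega
        rw [this, Nat.add_mod_right]
      · rw [if_neg h3, zero_add]
        by_cases h4 : k * s ≤ n
        · rw [if_pos h4, if_pos h4, Nat.mod_eq_of_lt (by omega)]
        · rw [if_neg h4, if_neg h4]
    · rw [if_neg hmn, zero_sub]
      congr 1
      refine Finset.sum_congr rfl (fun k _ => ?_)
      by_cases h4 : k * s ≤ n
      · rw [if_pos h4, if_pos h4, Nat.mod_eq_of_lt (by omega)]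
      · rw [if_neg h4, if_neg h4]

/-- If `F (X^m - 1) = A(X^s) B` with `deg B < m`, then the coefficients of `F` are given by sums of
products of coefficients of `A` and `B`. -/
lemma coeff_formula (F A B : ℤ[X]) (m s : ℕ) (hm : 0 < m) (hs : 0 < s)
    (h : F * (X ^ m - 1) = expand ℤ s A * B) (hB : ∀ j, m ≤ j → B.coeff j = 0) (n : ℕ) :
    F.coeff n = - ∑ k ∈ Finset.range (n / s + 1), A.coeff k * B.coeff ((n - k * s) % m) := by
  rw [coeff_formula_aux F A B m s hm h hB n]
  congr 1
  rw [← Finset.sum_filter]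
  -- both sums agree with the sum over the larger range
  have hkey : ∀ k, k * s ≤ n ↔ k < n / s + 1 := by
    intro k
    rw [Nat.lt_succ_iff, Nat.le_div_iff_mul_le hs]
  refine Finset.sum_subset ?_ ?_
  · intro k hk
    rw [Finset.mem_filter] at hk
    exact Finset.mem_range.2 ((hkey k).1 hk.2)
  · intro k hk hk'
    rw [Finset.mem_filter, not_and_or] at hk'
    rcases hk' with h1 | h1
    · rw [Finset.mem_range, not_lt] at h1
      rw [coeff_eq_zero_of_natDegree_lt (by omega), zero_mul]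
    · exact absurd ((hkey k).2 (Finset.mem_range.1 hk)) h1

/-! ## The polynomials for `7 · 19`, `7 · 19 · 797` and `7 · 19 · 797 · 424003` -/

lemma p7 : Nat.Prime 7 := by norm_num
lemma p19 : Nat.Prime 19 := by norm_num
lemma p797 : Nat.Prime 797 := by norm_num
lemma p424003 : Nat.Prime 424003 := by norm_num

lemma step_eq (n p : ℕ) (hp : p.Prime) (hnp : ¬ p ∣ n) (Psi : ℤ[X])
    (hPsi : cyclotomic n ℤ * Psi = X ^ n - 1) :
    cyclotomic (n * p) ℤ * (X ^ n - 1) = expand ℤ p (cyclotomic n ℤ) * Psi := by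
  rw [cyclotomic_expand_eq_cyclotomic_mul hp hnp ℤ, ← hPsi, mul_assoc]

/-- The coefficients of `Φ_{np}` in terms of those of `Φ_n` and `Psi = (X^n - 1) / Φ_n`. -/
lemma step_coeff (n p : ℕ) (hp : p.Prime) (hn : 0 < n) (hnp : ¬ p ∣ n) (Psi : ℤ[X])
    (hPsi : cyclotomic n ℤ * Psi = X ^ n - 1) (hB : ∀ j, n ≤ j → Psi.coeff j = 0) (k : ℕ) :
    (cyclotomic (n * p) ℤ).coeff k = -∑ i ∈ Finset.range (k / p + 1),
      (cyclotomic n ℤ).coeff i * Psi.coeff ((k - i * p) % n) :=
  coeff_formula _ _ _ n p hn hp.pos (step_eq n p hp hnp Psi hPsi) hB k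

lemma step_psi (n p : ℕ) (hp : p.Prime) (hnp : ¬ p ∣ n) (Psi : ℤ[X])
    (hPsi : cyclotomic n ℤ * Psi = X ^ n - 1) :
    cyclotomic (n * p) ℤ * (expand ℤ p Psi * cyclotomic n ℤ) = X ^ (n * p) - 1 := by
  have h : expand ℤ p (cyclotomic n ℤ * Psi) = X ^ (n * p) - 1 := by
    rw [hPsi, map_sub, map_pow, map_one, expand_X, ← pow_mul, mul_comm p n]
  rw [map_mul, cyclotomic_expand_eq_cyclotomic_mul hp hnp ℤ] at h
  rw [← h]; ring

/-- `(X^133 - 1) / Φ_133`. -/
noncomputable def Psi1 : ℤ[X] := (X ^ 19 - 1) * cyclotomic 7 ℤ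

/-- `(X^106001 - 1) / Φ_106001`, where `106001 = 133 · 797`. -/
noncomputable def Psi2 : ℤ[X] := expand ℤ 797 Psi1 * cyclotomic 133 ℤ

lemma cyc7 : cyclotomic 7 ℤ * (X - 1) = X ^ 7 - 1 := by
  have : Fact (Nat.Prime 7) := ⟨p7⟩
  exact cyclotomic_prime_mul_X_sub_one ℤ 7

lemma cyc133 : expand ℤ 19 (cyclotomic 7 ℤ) = cyclotomic 133 ℤ * cyclotomic 7 ℤ := by
  have h := cyclotomic_expand_eq_cyclotomic_mul (n := 7) p19 (by norm_num) ℤ
  rwa [show (7 * 19 : ℕ) = 133 by norm_num] at h

lemma eq133 : cyclotomic 133 ℤ * (X ^ 7 - 1) = expand ℤ 19 (cyclotomic 7 ℤ) * (X - 1) := by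
  rw [cyc133, ← cyc7]; ring

lemma psi1 : cyclotomic 133 ℤ * Psi1 = X ^ 133 - 1 := by
  have h : expand ℤ 19 (cyclotomic 7 ℤ * (X - 1)) = X ^ 133 - 1 := by
    rw [cyc7, map_sub, map_pow, map_one, expand_X, ← pow_mul]
  rw [map_mul, cyc133, map_sub, map_one, expand_X] at h
  rw [Psi1, ← h]; ring

/-! ## Coefficients -/

lemma coeff7 (k : ℕ) : (cyclotomic 7 ℤ).coeff k = if k < 7 then 1 else 0 := by
  have : Fact (Nat.Prime 7) := ⟨p7⟩
  rw [cyclotomic_prime ℤ 7, finsetSum_coeff]
  simp only [coeff_X_pow]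
  rw [Finset.sum_ite_eq]
  simp

/-- Coefficients of `Φ_133`. -/
def au (n : ℕ) : ℤ :=
  -∑ k ∈ Finset.range (n / 19 + 1), (if k < 7 then (1 : ℤ) else 0) *
    ((if (n - k * 19) % 7 = 1 then 1 else 0) - (if (n - k * 19) % 7 = 0 then 1 else 0))

lemma coeff133 (n : ℕ) : (cyclotomic 133 ℤ).coeff n = au n := by
  rw [coeff_formula _ _ _ 7 19 (by norm_num) (by norm_num) eq133]
  · unfold au
    simp only [coeff7, coeff_sub, coeff_X, coeff_one]
    congr 1
    refine Finset.sum_congr rfl (fun k _ => ?_)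
    congr 2
    simp only [eq_comm]
  · intro j hj
    rw [coeff_sub, coeff_X, coeff_one, if_neg (by omega), if_neg (by omega), sub_zero]

/-- Coefficients of `Psi1`. -/
def pu (t : ℕ) : ℤ := (if 19 ≤ t ∧ t < 26 then 1 else 0) - (if t < 7 then 1 else 0)

lemma coeffPsi1 (t : ℕ) : Psi1.coeff t = pu t := by
  unfold Psi1 pu
  rw [sub_mul, one_mul, coeff_sub, coeff_X_pow_mul', coeff7, coeff7]
  congr 1
  by_cases h : 19 ≤ t
  · rw [if_pos h]
    by_cases h2 : t < 26
    · rw [if_pos (by omega), if_pos ⟨h, h2⟩]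
    · rw [if_neg (by omega), if_neg (by omega)]
  · rw [if_neg h, if_neg (by omega)]

/-- Coefficients of `Φ_106001`. -/
def am (n : ℕ) : ℤ := -∑ k ∈ Finset.range (n / 797 + 1), au k * pu ((n - k * 797) % 133)

lemma pu_zero (t : ℕ) (ht : 26 ≤ t) : pu t = 0 := by
  unfold pu
  rw [if_neg (by omega), if_neg (by omega), sub_zero]

lemma coeff106001 (n : ℕ) : (cyclotomic (133 * 797) ℤ).coeff n = am n := by
  have h := step_coeff 133 797 p797 (by norm_num) (by norm_num) Psi1 psi1
    (fun j hj => by rw [coeffPsi1, pu_zero j (by omega)]) n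
  rw [h]
  unfold am
  simp only [coeff133, coeffPsi1]

lemma natDegree133 : (cyclotomic 133 ℤ).natDegree < 797 := by
  rw [natDegree_cyclotomic]
  have : Nat.totient 133 ≤ 133 := Nat.totient_le 133
  omega

lemma coeffPsi2 (n : ℕ) : Psi2.coeff n =
    if n / 797 ≤ Psi1.natDegree then pu (n / 797) * au (n % 797) else 0 := by
  unfold Psi2
  rw [coeff_expand_mul]
  have hz : ∀ k, k ≠ n / 797 → (if k * 797 ≤ n then Psi1.coeff k *
      (cyclotomic 133 ℤ).coeff (n - k * 797) else 0) = 0 := by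
    intro k hk
    by_cases h1 : k * 797 ≤ n
    · rw [if_pos h1]
      rw [coeff_eq_zero_of_natDegree_lt (p := cyclotomic 133 ℤ), mul_zero]
      refine lt_of_lt_of_le natDegree133 ?_
      omega
    · rw [if_neg h1]
  by_cases hn : n / 797 ≤ Psi1.natDegree
  · rw [if_pos hn, Finset.sum_eq_single (n / 797)]
    · rw [if_pos (by omega), coeffPsi1, coeff133]
      congr 2
      omega
    · intro k _ hk; exact hz k hk
    · intro h; rw [Finset.mem_range] at h; omega
  · rw [if_neg hn]
    refine Finset.sum_eq_zero (fun k hk => hz k ?_)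
    rw [Finset.mem_range] at hk
    omega

lemma coeffPsi2' (n : ℕ) : Psi2.coeff n = pu (n / 797) * au (n % 797) := by
  rw [coeffPsi2]
  by_cases hn : n / 797 ≤ Psi1.natDegree
  · rw [if_pos hn]
  · rw [if_neg hn, ← coeffPsi1, coeff_eq_zero_of_natDegree_lt (by omega), zero_mul]

lemma psi2 : cyclotomic (133 * 797) ℤ * Psi2 = X ^ (133 * 797) - 1 :=
  step_psi 133 797 p797 (by norm_num) Psi1 psi1

lemma coeffBig_aux (k : ℕ) : (cyclotomic (133 * 797 * 424003) ℤ).coeff k =
    -∑ i ∈ Finset.range (k / 424003 + 1),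
      am i * (pu ((k - i * 424003) % (133 * 797) / 797) *
        au ((k - i * 424003) % (133 * 797) % 797)) := by
  have h := step_coeff (133 * 797) 424003 p424003 (by norm_num) (by norm_num) Psi2 psi2
    (fun j hj => by rw [coeffPsi2', pu_zero _ (by omega), zero_mul]) k
  rw [h]
  simp only [coeff106001, coeffPsi2']

/-- The decisive coefficient. -/
lemma coeffBig : (cyclotomic (133 * 797 * 424003) ℤ).coeff 12843474914 = -3 := by
  rw [coeffBig_aux]
  have hsplit : Finset.range (12843474914 / 424003 + 1) =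
      Finset.range 30250 ∪ Finset.Ico 30250 30292 := by
    ext x
    simp only [Finset.mem_range, Finset.mem_union, Finset.mem_Ico]
    omega
  have hdisj : Disjoint (Finset.range 30250) (Finset.Ico 30250 30292) := by
    rw [Finset.disjoint_left]
    intro x hx hx'
    rw [Finset.mem_range] at hx
    rw [Finset.mem_Ico] at hx'
    omega
  rw [hsplit, Finset.sum_union hdisj]
  have h0 : ∑ x ∈ Finset.range 30250, am x *
      (pu ((12843474914 - x * 424003) % (133 * 797) / 797) *
      au ((12843474914 - x * 424003) % (133 * 797) % 797)) = 0 := by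
    refine Finset.sum_eq_zero (fun x hx => ?_)
    rw [Finset.mem_range] at hx
    have h1 : (12843474914 - x * 424003) % (133 * 797) = 75751 + x := by omega
    rw [h1, pu_zero _ (by omega), zero_mul, mul_zero]
  rw [h0, zero_add]
  decide +kernel

/-- **Main theorem.** The assertion of Q1 is false. -/
theorem result : ¬ (∀ p q r s : ℕ, p.Prime → q.Prime → r.Prime → s.Prime →
    p < q → q < r → r < s → PM s (p * q * r) → PM r (p * q) → ¬ ((q : ℤ) ≡ -1 [ZMOD p]) →
    height (p * q * r * s) = 2) := by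
  intro h
  have h1 := h 7 19 797 424003 p7 p19 p797 p424003 (by norm_num) (by norm_num) (by norm_num)
    (Or.inr (by decide)) (Or.inr (by decide)) (by decide)
  have h2 : (7 * 19 * 797 * 424003 : ℕ) = 133 * 797 * 424003 := by norm_num
  rw [h2] at h1
  have h3 : 12843474914 ∈ (cyclotomic (133 * 797 * 424003) ℤ).support := by
    rw [mem_support_iff, coeffBig]; norm_num
  have h4 := Finset.le_sup (f := fun k =>
    ((cyclotomic (133 * 797 * 424003) ℤ).coeff k).natAbs) h3
  simp only [coeffBig] at h4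
  unfold height at h1
  rw [h1] at h4
  norm_num at h4

end Pool.Agent.Results.MP_b29aa3_nt.HeightThree
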